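import Pool.Agent.Helper76.PW.PONa

set_option autoImplicit false

namespace Pool.Agent.Helper76.PW

open MeasureTheory Filter Pool.Agent.Helper95.PW

/-- the regularised Coulomb potential -/
noncomputable def pon_w (e : ℝ) (y : R3) : ℝ := (Real.sqrt (y 0 ^ 2 + y 1 ^ 2 + y 2 ^ 2 + e ^ 2))⁻¹

theorem pon_rho_pos {e : ℝ} (he : 0 < e) (y : R3) : 0 < y 0 ^ 2 + y 1 ^ 2 + y 2 ^ 2 + e ^ 2 := by
  positivity

theorem pon_w_smooth {e : ℝ} (he : 0 < e) : ContDiff ℝ (⊤ : ℕ∞) (pon_w e) := by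
  unfold pon_w
  have h0 : ∀ i : Fin 3, ContDiff ℝ (⊤ : ℕ∞) (fun y : R3 => y i) := fun i =>
    contDiff_apply (𝕜 := ℝ) (E := ℝ) i
  refine ContDiff.inv (ContDiff.sqrt ((((h0 0).pow 2).add ((h0 1).pow 2)).add
    ((h0 2).pow 2) |>.add contDiff_const) (fun y => (pon_rho_pos he y).ne')) (fun y => ?_)
  exact (Real.sqrt_pos.2 (pon_rho_pos he y)).ne'

theorem pon_w_pos {e : ℝ} (he : 0 < e) (y : R3) : 0 < pon_w e y := by
  unfold pon_w
  exact inv_pos.2 (Real.sqrt_pos.2 (pon_rho_pos he y))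

theorem pon_w_le {e : ℝ} {y : R3} (hy : 0 < nr y) : pon_w e y ≤ 1 / nr y := by
  unfold pon_w nr
  unfold nr at hy
  rw [one_div]
  apply inv_anti₀ hy
  apply Real.sqrt_le_sqrt
  nlinarith [sq_nonneg e]

theorem pon_pdw {e : ℝ} (he : 0 < e) (i : Fin 3) (y : R3) :
    pd i (pon_w e) y = -(y i * pon_w e y ^ 3) := by
  have hρ := pon_rho_pos he y
  have h1 : ∀ j : Fin 3, HasFDerivAt (fun y : R3 => y j ^ 2)
      ((2 * y j) • ContinuousLinearMap.proj (R := ℝ) j) y := by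
    intro j
    have := (hasFDerivAt_apply (𝕜 := ℝ) j y).pow 2
    simpa using this
  obtain ⟨L, hL⟩ : ∃ L : R3 →L[ℝ] ℝ, L =
      (2 * y 0) • ContinuousLinearMap.proj (R := ℝ) (0 : Fin 3) +
        (2 * y 1) • ContinuousLinearMap.proj (R := ℝ) (1 : Fin 3) +
        (2 * y 2) • ContinuousLinearMap.proj (R := ℝ) (2 : Fin 3) := ⟨_, rfl⟩
  have h2 : HasFDerivAt (fun y : R3 => y 0 ^ 2 + y 1 ^ 2 + y 2 ^ 2 + e ^ 2) L y := by
    rw [hL]
    exact (((h1 0).add (h1 1)).add (h1 2)).add_const _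
  have hs : Real.sqrt (y 0 ^ 2 + y 1 ^ 2 + y 2 ^ 2 + e ^ 2) ≠ 0 := (Real.sqrt_pos.2 hρ).ne'
  have h3 := ((Real.hasDerivAt_sqrt hρ.ne').inv hs).comp_hasFDerivAt y h2
  have h4 : HasFDerivAt (pon_w e) _ y := h3
  unfold pd
  rw [h4.fderiv]
  set S := Real.sqrt (y 0 ^ 2 + y 1 ^ 2 + y 2 ^ 2 + e ^ 2) with hS
  have hw : pon_w e y = S⁻¹ := rfl
  rw [hw]
  have h5 : L (Pi.single i 1 : R3) = 2 * y i := by
    rw [hL]
    fin_cases i <;> simp
  show (-(1 / (2 * S)) / S ^ 2) * L (Pi.single i 1 : R3) = -(y i * S⁻¹ ^ 3)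
  rw [h5]
  field_simp

theorem pon_pd_mul {a b : R3 → ℝ} (ha : ContDiff ℝ (⊤ : ℕ∞) a) (hb : ContDiff ℝ (⊤ : ℕ∞) b)
    (j : Fin 3) (y : R3) :
    pd j (fun y => a y * b y) y = a y * pd j b y + b y * pd j a y := by
  unfold pd
  rw [fderiv_fun_mul (ha.differentiable pon_ne y) (hb.differentiable pon_ne y)]
  simp

theorem pon_pd_neg {a : R3 → ℝ} (j : Fin 3) (y : R3) :
    pd j (fun y => -a y) y = -pd j a y := by
  unfold pd
  rw [fderiv_fun_neg]
  simp

theorem pon_pd_coord (i j : Fin 3) (y : R3) :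
    pd j (fun y : R3 => y i) y = if i = j then 1 else 0 := by
  unfold pd
  rw [(hasFDerivAt_apply (𝕜 := ℝ) i y).fderiv]
  simp [Pi.single_apply]

theorem pon_pd_sum {a : Fin 3 → R3 → ℝ} (ha : ∀ i, ContDiff ℝ (⊤ : ℕ∞) (a i)) (j : Fin 3)
    (y : R3) : pd j (fun y => ∑ i, a i y) y = ∑ i, pd j (a i) y := by
  unfold pd
  rw [fderiv_fun_sum (fun i _ => (ha i).differentiable pon_ne y)]
  simp

theorem pon_coord_smooth (i : Fin 3) : ContDiff ℝ (⊤ : ℕ∞) (fun y : R3 => y i) :=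
  contDiff_apply (𝕜 := ℝ) (E := ℝ) i

theorem pon_dd {e : ℝ} (he : 0 < e) {g : R3 → ℝ} (hg : ContDiff ℝ (⊤ : ℕ∞) g) (y : R3) :
    pon_dot g (pon_dot g (pon_w e)) y =
      3 * pon_w e y ^ 5 * (∑ i, y i * pd i g y) ^ 2 -
      pon_w e y ^ 3 * (∑ j, pd j g y ^ 2 + ∑ j, ∑ i, pd j g y * (y i * pd j (pd i g) y)) := by
  have hw := pon_w_smooth he
  have hpg := fun i => pon_pd_smooth hg i
  have hq : ContDiff ℝ (⊤ : ℕ∞) (fun y : R3 => ∑ i, y i * pd i g y) :=
    ContDiff.sum fun i _ => (pon_coord_smooth i).mul (hpg i)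
  have h1 : pon_dot g (pon_w e) = fun y =>
      -((pon_w e y * (pon_w e y * pon_w e y)) * ∑ i, y i * pd i g y) := by
    funext y
    unfold pon_dot
    simp only [pon_pdw he]
    rw [Finset.mul_sum, ← Finset.sum_neg_distrib]
    apply Finset.sum_congr rfl
    intro i _
    ring
  have h2 : ∀ j, pd j (fun y : R3 => ∑ i, y i * pd i g y) y =
      (∑ i, y i * pd j (pd i g) y) + pd j g y := by
    intro j
    rw [pon_pd_sum (fun i => (pon_coord_smooth i).mul (hpg i))]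
    have : ∀ i, pd j (fun y : R3 => y i * pd i g y) y =
        y i * pd j (pd i g) y + (if i = j then pd i g y else 0) := by
      intro i
      rw [pon_pd_mul (pon_coord_smooth i) (hpg i), pon_pd_coord]
      split_ifs <;> simp
    simp only [this]
    rw [Finset.sum_add_distrib, Finset.sum_ite_eq' Finset.univ j, if_pos (Finset.mem_univ _)]
  have h3 : ∀ j, pd j (pon_dot g (pon_w e)) y =
      3 * pon_w e y ^ 5 * (y j * ∑ i, y i * pd i g y) -
        pon_w e y ^ 3 * ((∑ i, y i * pd j (pd i g) y) + pd j g y) := by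
    intro j
    rw [h1, pon_pd_neg, pon_pd_mul (hw.mul (hw.mul hw)) hq, h2,
      pon_pd_mul hw (hw.mul hw), pon_pd_mul hw hw, pon_pdw he]
    ring
  have h4 : pon_dot g (pon_dot g (pon_w e)) y =
      ∑ j, pd j g y * (3 * pon_w e y ^ 5 * (y j * ∑ i, y i * pd i g y) -
        pon_w e y ^ 3 * ((∑ i, y i * pd j (pd i g) y) + pd j g y)) := by
    have : pon_dot g (pon_dot g (pon_w e)) y = ∑ j, pd j g y * pd j (pon_dot g (pon_w e)) y := rfl
    rw [this]
    simp only [h3]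
  rw [h4]
  simp only [Fin.sum_univ_three]
  ring

theorem pon_nr_cont : Continuous nr := by
  unfold nr
  fun_prop

theorem pon_coord_le (y : R3) (i : Fin 3) : |y i| ≤ nr y := by
  unfold nr
  apply Real.abs_le_sqrt
  fin_cases i <;> simp <;> nlinarith [sq_nonneg (y 0), sq_nonneg (y 1), sq_nonneg (y 2)]

theorem pon_bound {e : ℝ} (he : 0 < e) {g : R3 → ℝ} {K r : ℝ} (hS : Scale g K r) (hr : 0 < r)
    (hz : ∀ y, nr y < r → g y = 0) (y : R3) :
    -(pon_dot g (pon_dot g (pon_w e)) y) ≤ 12 * K ^ 2 / r ^ 2 * (1 / nr y) := by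
  have hK : 0 ≤ K := (abs_nonneg _).trans (hS.d1 0 y)
  have hn0 : 0 ≤ nr y := Real.sqrt_nonneg _
  by_cases hy : nr y < r
  · have h1 : g =ᶠ[nhds y] fun _ => 0 := by
      have : {y | nr y < r} ∈ nhds y := (isOpen_lt pon_nr_cont continuous_const).mem_nhds hy
      exact Filter.eventually_of_mem this (fun z hz' => hz z hz')
    have h2 : ∀ j, pd j g y = 0 := by
      intro j
      unfold pd
      rw [h1.fderiv_eq]
      simp
    have h3 : pon_dot g (pon_dot g (pon_w e)) y = 0 := by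
      unfold pon_dot
      apply Finset.sum_eq_zero
      intro j _
      rw [h2 j, zero_mul]
    rw [h3, neg_zero]
    positivity
  · have hy' : r ≤ nr y := not_lt.1 hy
    have hn : 0 < nr y := by linarith
    rw [pon_dd he hS.sm y]
    set w := pon_w e y with hw
    have hwp : 0 < w := pon_w_pos he y
    have hwl : w ≤ 1 / nr y := pon_w_le hn
    have hA : ∑ j, pd j g y ^ 2 ≤ 3 * K ^ 2 := by
      calc ∑ j, pd j g y ^ 2 ≤ ∑ _j : Fin 3, K ^ 2 := by
            apply Finset.sum_le_sum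
            intro j _
            have := hS.d1 j y
            rw [← sq_abs]
            exact pow_le_pow_left₀ (abs_nonneg _) this 2
        _ = _ := by simp
    have hB : ∑ j, ∑ i, pd j g y * (y i * pd j (pd i g) y) ≤ 9 * (K * (nr y * (K / r))) := by
      calc ∑ j, ∑ i, pd j g y * (y i * pd j (pd i g) y)
          ≤ ∑ _j : Fin 3, ∑ _i : Fin 3, K * (nr y * (K / r)) := by
            apply Finset.sum_le_sum
            intro j _
            apply Finset.sum_le_sum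
            intro i _
            refine (le_abs_self _).trans ?_
            rw [abs_mul, abs_mul]
            have h1 := hS.d1 j y
            have h2 := hS.d2 j i y
            have h3 := pon_coord_le y i
            gcongr
        _ = _ := by simp; ring
    have h5 : 0 ≤ 3 * w ^ 5 * (∑ i, y i * pd i g y) ^ 2 := by positivity
    have h6 : w ^ 3 ≤ (1 / nr y) ^ 3 := by gcongr
    calc -(3 * w ^ 5 * (∑ i, y i * pd i g y) ^ 2 -
          w ^ 3 * (∑ j, pd j g y ^ 2 + ∑ j, ∑ i, pd j g y * (y i * pd j (pd i g) y)))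
        ≤ w ^ 3 * (∑ j, pd j g y ^ 2 + ∑ j, ∑ i, pd j g y * (y i * pd j (pd i g) y)) := by
          linarith
      _ ≤ w ^ 3 * (3 * K ^ 2 + 9 * (K * (nr y * (K / r)))) := by gcongr
      _ ≤ (1 / nr y) ^ 3 * (3 * K ^ 2 + 9 * (K * (nr y * (K / r)))) := by gcongr
      _ = (3 * K ^ 2 * (1 / nr y) ^ 2 + 9 * K ^ 2 / r * (1 / nr y)) * (1 / nr y) := by
          field_simp
      _ ≤ (3 * K ^ 2 * (1 / r) ^ 2 + 9 * K ^ 2 / r * (1 / r)) * (1 / nr y) := by
          gcongr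
      _ = _ := by
          field_simp
          ring

end Pool.Agent.Helper76.PW
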