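import Pool.Agent.Helper76.PW.PONb

set_option autoImplicit false

namespace Pool.Agent.Helper76.PW

open MeasureTheory Filter Pool.Agent.Helper95.PW

noncomputable def pon_W {n : ℕ} (e : ℝ) (x : Cf n) : ℝ := ∑ k, pon_w e (x k)

theorem pon_W_smooth {n : ℕ} {e : ℝ} (he : 0 < e) :
    ContDiff ℝ (⊤ : ℕ∞) (pon_W e : Cf n → ℝ) := by
  unfold pon_W
  exact ContDiff.sum fun k _ => pon_comp_smooth (pon_w_smooth he) k

theorem pon_nr_zero {y : R3} (h : nr y = 0) : y = 0 := by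
  funext i
  have h1 := pon_coord_le y i
  rw [h] at h1
  exact abs_nonpos_iff.1 h1

theorem pon_ae (n : ℕ) : ∀ᵐ x : Cf n, ∀ k, 0 < nr (x k) := by
  rw [ae_all_iff]
  intro k
  have h1 : Measure.QuasiMeasurePreserving (Function.eval k)
      (volume : Measure (Cf n)) (volume : Measure R3) :=
    Measure.quasiMeasurePreserving_eval (fun _ : Fin n => (volume : Measure R3)) k
  have h2 : ∀ᵐ y : R3, y ≠ 0 := by
    rw [ae_iff]
    have : {a : R3 | ¬a ≠ 0} = {0} := by ext; simp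
    rw [this]
    exact measure_singleton 0
  have h3 := h1.ae h2
  filter_upwards [h3] with x hx
  have h0 : 0 ≤ nr (x k) := Real.sqrt_nonneg _
  refine lt_of_le_of_ne h0 fun h => hx ?_
  exact pon_nr_zero h.symm

theorem pon_lim (hINT : ST_INT) {n : ℕ} {a b : Cf n → ℝ} (ha : ContDiff ℝ (⊤ : ℕ∞) a)
    (hac : HasCompactSupport a) (hb : ContDiff ℝ (⊤ : ℕ∞) b) (hbc : HasCompactSupport b) :
    Tendsto (fun j : ℕ => ∫ x, pon_W (1 / ((j : ℝ) + 1)) x * (a x * b x)) atTop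
      (nhds (∫ x, att x * (a x * b x))) := by
  have hI := (hINT n a b ha hac hb hbc).1
  have hej : ∀ j : ℕ, 0 < 1 / ((j : ℝ) + 1) := fun j => by positivity
  refine tendsto_integral_of_dominated_convergence (fun x => ‖att x * (a x * b x)‖) ?_ hI.norm
    ?_ ?_
  · intro j
    exact ((pon_W_smooth (hej j)).continuous.mul
      (ha.continuous.mul hb.continuous)).aestronglyMeasurable
  · intro j
    filter_upwards [pon_ae n] with x hx
    rw [norm_mul, norm_mul (att x)]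
    refine mul_le_mul_of_nonneg_right ?_ (norm_nonneg _)
    have h1 : 0 ≤ pon_W (1 / ((j : ℝ) + 1)) x :=
      Finset.sum_nonneg fun k _ => (pon_w_pos (hej j) (x k)).le
    have h2 : pon_W (1 / ((j : ℝ) + 1)) x ≤ att x :=
      Finset.sum_le_sum fun k _ => pon_w_le (hx k)
    rw [Real.norm_eq_abs, Real.norm_eq_abs, abs_of_nonneg h1, abs_of_nonneg (h1.trans h2)]
    exact h2
  · filter_upwards [pon_ae n] with x hx
    refine Tendsto.mul_const _ ?_
    unfold pon_W att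
    refine tendsto_finsetSum _ fun k _ => ?_
    have h1 : Tendsto (fun j : ℕ => (1 / ((j : ℝ) + 1)) ^ 2) atTop (nhds (0 ^ 2)) :=
      (tendsto_one_div_add_atTop_nhds_zero_nat (𝕜 := ℝ)).pow 2
    have h2 : Tendsto (fun j : ℕ => x k 0 ^ 2 + x k 1 ^ 2 + x k 2 ^ 2 +
        (1 / ((j : ℝ) + 1)) ^ 2) atTop (nhds (x k 0 ^ 2 + x k 1 ^ 2 + x k 2 ^ 2)) := by
      have := h1.const_add (x k 0 ^ 2 + x k 1 ^ 2 + x k 2 ^ 2)
      simpa using this
    have h3 := ((Real.continuous_sqrt.tendsto _).comp h2).inv₀ (hx k).ne'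
    rw [one_div]
    exact h3

theorem pon_e (hPAN : ST_PAN) (hINT : ST_INT) {n : ℕ} {e : ℝ} (he : 0 < e) {g : R3 → ℝ}
    {K r : ℝ} (hS : Scale g K r) (hr : 0 < r) (hz : ∀ y, nr y < r → g y = 0) {v : Cf n → ℝ}
    (hv : ContDiff ℝ (⊤ : ℕ∞) v) (hvc : HasCompactSupport v)
    (hP : ContDiff ℝ (⊤ : ℕ∞) (Pg g v)) (hPc : HasCompactSupport (Pg g v)) :
    -((∫ x, pon_W e x * (Pg g v x * Pg g v x)) +
      ∫ x, pon_W e x * (Pg g (Pg g v) x * v x)) ≤
      6 * K ^ 2 / r ^ 2 * ∫ x, att x * v x ^ 2 := by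
  have hid := pon_id hPAN hS.sm (pon_W_smooth (n := n) he) hv hvc hP hPc
  have h1 : ∀ x : Cf n, pon_W e x * (Pg g v x * Pg g v x) = pon_W e x * (Pg g v x) ^ 2 := by
    intro x; ring
  simp only [h1]
  rw [hid]
  have h2 : pon_D g (pon_D g (pon_W e : Cf n → ℝ)) =
      fun x : Cf n => ∑ j, pon_dot g (pon_dot g (pon_w e)) (x j) := by
    have h3 : pon_D g (pon_W e : Cf n → ℝ) = fun x : Cf n => ∑ j, pon_dot g (pon_w e) (x j) :=
      pon_D_sum g (pon_w_smooth he)
    rw [h3]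
    exact pon_D_sum g (pon_dot_smooth hS.sm (pon_w_smooth he))
  rw [h2, ← integral_const_mul, ← integral_const_mul, ← integral_neg]
  have hdd := pon_dot_smooth hS.sm (pon_dot_smooth hS.sm (pon_w_smooth he))
  refine integral_mono ?_ ?_ ?_
  · refine ((Continuous.integrable_of_hasCompactSupport
      (f := fun x : Cf n => (∑ j, pon_dot g (pon_dot g (pon_w e)) (x j)) * v x ^ 2) ?_ ?_).const_mul
      (1 / 2)).neg
    · exact (ContDiff.sum fun k _ => pon_comp_smooth hdd k).continuous.mul (hv.continuous.pow 2)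
    · have : (fun x : Cf n => (∑ j, pon_dot g (pon_dot g (pon_w e)) (x j)) * v x ^ 2) =
          fun x => ((∑ j, pon_dot g (pon_dot g (pon_w e)) (x j)) * v x) * v x := by
        funext x; ring
      rw [this]
      exact hvc.mul_left
  · have := (hINT n v v hv hvc hv hvc).1.const_mul (6 * K ^ 2 / r ^ 2)
    refine this.congr (Eventually.of_forall fun x => ?_)
    show 6 * K ^ 2 / r ^ 2 * (att x * (v x * v x)) = 6 * K ^ 2 / r ^ 2 * (att x * v x ^ 2)
    ring
  · intro x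
    show -(1 / 2 * ((∑ j, pon_dot g (pon_dot g (pon_w e)) (x j)) * v x ^ 2)) ≤
      6 * K ^ 2 / r ^ 2 * (att x * v x ^ 2)
    have h4 : ∑ j, -(pon_dot g (pon_dot g (pon_w e)) (x j)) ≤ 12 * K ^ 2 / r ^ 2 * att x := by
      unfold att
      rw [Finset.mul_sum]
      exact Finset.sum_le_sum fun j _ => pon_bound he hS hr hz (x j)
    rw [Finset.sum_neg_distrib] at h4
    have h5 : 0 ≤ v x ^ 2 := sq_nonneg _
    calc -(1 / 2 * ((∑ j, pon_dot g (pon_dot g (pon_w e)) (x j)) * v x ^ 2))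
        = 1 / 2 * (-(∑ j, pon_dot g (pon_dot g (pon_w e)) (x j))) * v x ^ 2 := by ring
      _ ≤ 1 / 2 * (12 * K ^ 2 / r ^ 2 * att x) * v x ^ 2 := by gcongr
      _ = _ := by ring

theorem st_PON (hPAN : ST_PAN) (hSTB : ST_STB) (hINT : ST_INT) (_hHA1 : ST_HA1) : ST_PON := by
  refine ⟨6, by norm_num, fun n g K r u hS hr hz hu => ?_⟩
  have hP1 := (hSTB n g u hS.sm hu).2.1
  have hP2 := (hSTB n g (fun s => Pg g (u s)) hS.sm hP1).2.1
  have key : ∀ s, -((∫ x, att x * (Pg g (u s) x * Pg g (u s) x)) +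
      ∫ x, att x * (Pg g (Pg g (u s)) x * u s x)) ≤
      6 * K ^ 2 / r ^ 2 * ∫ x, att x * u s x ^ 2 := by
    intro s
    have h1 := pon_lim hINT (hP1 s).1 (hP1 s).2 (hP1 s).1 (hP1 s).2
    have h2 := pon_lim hINT (hP2 s).1 (hP2 s).2 (hu s).1 (hu s).2
    refine le_of_tendsto' (h1.add h2).neg fun j => ?_
    exact pon_e hPAN hINT (by positivity) hS hr hz (hu s).1 (hu s).2 (hP1 s).1 (hP1 s).2
  unfold one
  rw [← Finset.sum_add_distrib, ← Finset.sum_neg_distrib, Finset.mul_sum]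
  refine Finset.sum_le_sum fun s _ => ?_
  have h3 := key s
  have h4 : ∀ x : Cf n, att x * (Pg g (u s) x * Pg g (u s) x) =
      (∑ k, 1 / nr (x k)) * (Pg g (u s) x) ^ 2 := by
    intro x
    unfold att
    ring
  simp only [h4] at h3
  exact h3

end Pool.Agent.Helper76.PW
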