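import Pool.Agent.Helper95.PW.Stmts

set_option autoImplicit false

namespace Pool.Agent.Helper76.PW

open MeasureTheory Filter Pool.Agent.Helper95.PW

/-- the derivative along the field of `g` -/
noncomputable def pon_D {n : ℕ} (g : R3 → ℝ) (W : Cf n → ℝ) (x : Cf n) : ℝ :=
  ∑ k, ∑ i, pd i g (x k) * dv k i W x

/-- inner product of gradients -/
noncomputable def pon_dot (g h : R3 → ℝ) (y : R3) : ℝ := ∑ i, pd i g y * pd i h y

theorem pon_pd_smooth {g : R3 → ℝ} (hg : ContDiff ℝ (⊤ : ℕ∞) g) (i : Fin 3) :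
    ContDiff ℝ (⊤ : ℕ∞) (pd i g) := by
  unfold pd
  exact (hg.fderiv_right (m := ((⊤ : ℕ∞) : WithTop ℕ∞)) (by simp)).clm_apply contDiff_const

theorem pon_dv_smooth {n : ℕ} {W : Cf n → ℝ} (hW : ContDiff ℝ (⊤ : ℕ∞) W) (k : Fin n)
    (i : Fin 3) : ContDiff ℝ (⊤ : ℕ∞) (dv k i W) := by
  unfold dv
  exact (hW.fderiv_right (m := ((⊤ : ℕ∞) : WithTop ℕ∞)) (by simp)).clm_apply contDiff_const

theorem pon_comp_smooth {n : ℕ} {h : R3 → ℝ} (hh : ContDiff ℝ (⊤ : ℕ∞) h) (k : Fin n) :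
    ContDiff ℝ (⊤ : ℕ∞) (fun x : Cf n => h (x k)) :=
  hh.comp (contDiff_apply (𝕜 := ℝ) (E := R3) k)

theorem pon_D_smooth {n : ℕ} {g : R3 → ℝ} {W : Cf n → ℝ} (hg : ContDiff ℝ (⊤ : ℕ∞) g)
    (hW : ContDiff ℝ (⊤ : ℕ∞) W) : ContDiff ℝ (⊤ : ℕ∞) (pon_D g W) := by
  unfold pon_D
  exact ContDiff.sum fun k _ => ContDiff.sum fun i _ =>
    (pon_comp_smooth (pon_pd_smooth hg i) k).mul (pon_dv_smooth hW k i)

theorem pon_dot_smooth {g h : R3 → ℝ} (hg : ContDiff ℝ (⊤ : ℕ∞) g)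
    (hh : ContDiff ℝ (⊤ : ℕ∞) h) : ContDiff ℝ (⊤ : ℕ∞) (pon_dot g h) := by
  unfold pon_dot
  exact ContDiff.sum fun i _ => (pon_pd_smooth hg i).mul (pon_pd_smooth hh i)

theorem pon_ne : ((⊤ : ℕ∞) : WithTop ℕ∞) ≠ 0 := by simp

theorem pon_Pg_mul {n : ℕ} (g : R3 → ℝ) {W v : Cf n → ℝ} (hW : ContDiff ℝ (⊤ : ℕ∞) W)
    (hv : ContDiff ℝ (⊤ : ℕ∞) v) (x : Cf n) :
    Pg g (fun x => W x * v x) x = W x * Pg g v x + pon_D g W x * v x := by
  have hWd : DifferentiableAt ℝ W x := hW.differentiable pon_ne x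
  have hvd : DifferentiableAt ℝ v x := hv.differentiable pon_ne x
  have h1 : ∀ (k : Fin n) (i : Fin 3), dv k i (fun x => W x * v x) x =
      W x * dv k i v x + v x * dv k i W x := by
    intro k i
    unfold dv
    rw [fderiv_fun_mul hWd hvd]
    simp
  unfold Pg pon_D
  rw [Finset.mul_sum, Finset.sum_mul, ← Finset.sum_add_distrib]
  apply Finset.sum_congr rfl
  intro k _
  simp only [h1]
  rw [mul_add, Finset.mul_sum, Finset.sum_mul]
  have h2 : ∑ i, pd i g (x k) * (W x * dv k i v x + v x * dv k i W x) =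
      ∑ i, W x * (pd i g (x k) * dv k i v x) + ∑ i, pd i g (x k) * dv k i W x * v x := by
    rw [← Finset.sum_add_distrib]
    apply Finset.sum_congr rfl
    intro i _
    ring
  rw [h2]
  ring

theorem pon_id (hPAN : ST_PAN) {n : ℕ} {g : R3 → ℝ} (hg : ContDiff ℝ (⊤ : ℕ∞) g)
    {W v : Cf n → ℝ} (hW : ContDiff ℝ (⊤ : ℕ∞) W) (hv : ContDiff ℝ (⊤ : ℕ∞) v)
    (hvc : HasCompactSupport v) (hP : ContDiff ℝ (⊤ : ℕ∞) (Pg g v))
    (hPc : HasCompactSupport (Pg g v)) :
    (∫ x, W x * (Pg g v x) ^ 2) + ∫ x, W x * (Pg g (Pg g v) x * v x) =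
      1 / 2 * ∫ x, pon_D g (pon_D g W) x * v x ^ 2 := by
  have hD := pon_D_smooth hg hW
  have hDD := pon_D_smooth hg hD
  have e1 := hPAN n g (Pg g v) (fun x => W x * v x) hg hP hPc (hW.mul hv)
  have e2 := hPAN n g v (fun x => pon_D g W x * v x) hg hv hvc (hD.mul hv)
  simp only [pon_Pg_mul g hW hv] at e1
  simp only [pon_Pg_mul g hD hv] at e2
  have i1 : Integrable (fun x => W x * (Pg g v x) ^ 2) := by
    refine Continuous.integrable_of_hasCompactSupport
      (hW.continuous.mul (hP.continuous.pow 2)) ?_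
    have : (fun x => W x * (Pg g v x) ^ 2) = fun x => (W x * Pg g v x) * Pg g v x := by
      funext x; ring
    rw [this]
    exact hPc.mul_left
  have i2 : Integrable (fun x => Pg g v x * (pon_D g W x * v x)) :=
    Continuous.integrable_of_hasCompactSupport
      (hP.continuous.mul (hD.continuous.mul hv.continuous)) hPc.mul_right
  have i3 : Integrable (fun x => pon_D g (pon_D g W) x * v x ^ 2) := by
    refine Continuous.integrable_of_hasCompactSupport
      (hDD.continuous.mul (hv.continuous.pow 2)) ?_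
    have : (fun x => pon_D g (pon_D g W) x * v x ^ 2) =
        fun x => (pon_D g (pon_D g W) x * v x) * v x := by
      funext x; ring
    rw [this]
    exact hvc.mul_left
  have f1 : ∫ x, Pg g v x * (W x * Pg g v x + pon_D g W x * v x) =
      (∫ x, W x * (Pg g v x) ^ 2) + ∫ x, Pg g v x * (pon_D g W x * v x) := by
    rw [← integral_add i1 i2]
    congr 1
    funext x
    ring
  have f2 : ∫ x, v x * (pon_D g W x * Pg g v x + pon_D g (pon_D g W) x * v x) =
      (∫ x, Pg g v x * (pon_D g W x * v x)) + ∫ x, pon_D g (pon_D g W) x * v x ^ 2 := by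
    rw [← integral_add i2 i3]
    congr 1
    funext x
    ring
  have f3 : ∫ x, Pg g (Pg g v) x * (W x * v x) = ∫ x, W x * (Pg g (Pg g v) x * v x) := by
    congr 1
    funext x
    ring
  rw [f1, f3] at e1
  rw [f2] at e2
  linarith

theorem pon_dv_sum {n : ℕ} {h : R3 → ℝ} (hh : ContDiff ℝ (⊤ : ℕ∞) h) (k : Fin n) (i : Fin 3)
    (x : Cf n) : dv k i (fun x : Cf n => ∑ j, h (x j)) x = pd i h (x k) := by
  have h1 : HasFDerivAt (fun x : Cf n => ∑ j, h (x j))
      (∑ j : Fin n, (fderiv ℝ h (x j)).comp (ContinuousLinearMap.proj (R := ℝ) j)) x := by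
    apply HasFDerivAt.fun_sum
    intro j _
    exact (hh.differentiable pon_ne (x j)).hasFDerivAt.comp x
      (hasFDerivAt_apply (𝕜 := ℝ) j x)
  unfold dv pd
  rw [h1.fderiv, ContinuousLinearMap.sum_apply, Finset.sum_eq_single k]
  · simp
  · intro j _ hj
    simp [Pi.single_eq_of_ne hj]
  · intro h
    exact absurd (Finset.mem_univ _) h

theorem pon_D_sum {n : ℕ} (g : R3 → ℝ) {h : R3 → ℝ} (hh : ContDiff ℝ (⊤ : ℕ∞) h) :
    pon_D g (fun x : Cf n => ∑ j, h (x j)) = fun x : Cf n => ∑ j, pon_dot g h (x j) := by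
  funext x
  unfold pon_D pon_dot
  simp only [pon_dv_sum hh]

end Pool.Agent.Helper76.PW
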